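import Pool.Agent.Y113.MT.Cnt3
import Pool.Agent.Y730.MT.Nf
import Pool.Agent.Y730.MT.Td
import Pool.Agent.Y730.MT.Cnt
import Pool.Agent.Y46.MT.Kw
import Pool.Agent.Y921.MT.Rb
import Pool.Agent.Y861.MT.WF
import Pool.Agent.Y130.MT.TN
import Pool.Agent.Y154.MT.Fqc
import Pool.Agent.Y988.MT.Tyc
import Pool.Agent.Y455.MT.Tbc
import Pool.Agent.Y220.MT.Sim
import Pool.Agent.Y431.MT.Intt
import Pool.Agent.Y815.MT.DimA
import Pool.Agent.Y651.MT.Uni
import Pool.Agent.Y889.MT.Ctk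

/-!
# Hodge classes on the products of an arbitrary variety and fibres of the hypergeometric variations of Hodge structure

Let `β_1, …, β_m` be rational numbers in `(0, 1)` and `θ = z d/dz`. The hypergeometric operator
`θ^(2m) - z ∏_j (θ + β_j) (θ + 1 - β_j)` has maximally unipotent monodromy at `z = 0` and underlies an irreducible
variation of Hodge structure of rank `2m` and of weight `2m - 1` with all Hodge numbers `h^{p,q} = 1` on the projective
line minus three points. For `m = 2` and `β = (1/5, 2/5)` it is the variation of the third cohomology of the mirror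
quintics, for `β_j = j / (2m + 1)` the variation of the middle cohomology of the mirrors `X_t`, over `ℚ`, of the Calabi–Yau
hypersurfaces of degree `2m + 1` in the projective space of dimension `2m`; the other cohomology of `X_t` is spanned by
classes of algebraic cycles.

Let `Z` be an ARBITRARY smooth projective variety, `W` the rational vector space `⨁_i H^i(Z)` with the grading of `W_ℂ` by the
first Hodge index, `d = dim W`. We prove for all `m ≥ 2`: (1) for all sufficiently large `G` there is an exponent `E`,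
independent of `Z`, such that for all `B`, `t` with `(B + 2)^E ≤ t` all tuples `X_1, …, X_k` of different fibres at the points
`z = 1 / (t - G u)`, `1 ≤ u ≤ B`, outside a set of at most `m + 2 + d² / (m (2m + 1))` exceptional `u` have the property that
every Hodge class on `Z^j × ∏_i X_i^{r_i}` is a combination of products of Hodge classes on `Z^j` and of the polarisations of
the `X_i`; (2) for all `k` and `d` there are `δ > 0` and `K` such that for all `Z` with `dim W = d` and all `T ≥ 1` all but at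
most `K T^(k - δ)` of the `k`-tuples of fibres at the points `(1 / t_1, …, 1 / t_k)`, `t_i ≤ T`, have this property. So if all
Hodge classes on `Z` are absolute Hodge then so are all Hodge classes on `Z × ∏_i X_i^{r_i}`. -/

set_option autoImplicit false

open PowerSeries

namespace Pool.Agent.Results.MP_4e1cf2_ag.ArbitraryFactor

/-- the power series `x + ε` in the variable `ε` -/
noncomputable def shift (x : ℚ) : PowerSeries ℚ := C x + X

/-- `a_k(ε) = ∏_{l < k} ∏_j (l + ε + β_j) (l + ε + 1 - β_j) / (l + 1 + ε)^2`. The series `∑_k a_k(ε) z^(k + ε)` satisfies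
`(θ^n - z ∏_j (θ + β_j) (θ + 1 - β_j)) f = ε^n z^ε`, `n = 2m`, hence its coefficients `f_j` at `ε^j` with `j < n` are
solutions of the homogeneous equation. -/
noncomputable def frob {m : ℕ} (β : Fin m → ℚ) (k : ℕ) : PowerSeries ℚ :=
  ∏ l ∈ Finset.range k, ∏ j, (shift (l + β j) * shift (l + 1 - β j) * ((shift (l + 1))⁻¹) ^ 2)

/-- The row `((θ^i f_j)(1 / t))_j`, where `f_j(z)` is the coefficient of `ε^j` in the series `∑_k a_k(ε) z^(k + ε)`,
`z^ε = ∑_l (log z)^l ε^l / l!`. -/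
noncomputable def per {m : ℕ} (β : Fin m → ℚ) (t i : ℕ) : Fin (2 * m) → ℂ := fun j =>
  ∑ l ∈ Finset.range ((j : ℕ) + 1), ((Real.log (1 / t) ^ l / l.factorial : ℝ) : ℂ) *
    ∑' k : ℕ, ((coeff ((j : ℕ) - l) (shift k ^ i * frob β k) : ℚ) : ℂ) * (1 / (t : ℂ)) ^ k

/-- The nilpotent matrix: `exp (2 π i N)` is the local monodromy at `z = 0` in the basis `f_0, …, f_{n-1}`. -/
def N (n : ℕ) : Matrix (Fin n) (Fin n) ℂ := Matrix.of fun i j => if (j : ℕ) = i + 1 then 1 else 0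

/-- the matrix of the flat alternating form in the Frobenius basis -/
def S (n : ℕ) : Matrix (Fin n) (Fin n) ℂ := Matrix.of fun i j => if (i : ℕ) + j + 1 = n then (-1) ^ (i : ℕ) else 0

/-- a rational matrix as a complex matrix -/
def toC {n : ℕ} (M : Matrix (Fin n) (Fin n) ℚ) : Matrix (Fin n) (Fin n) ℂ := M.map fun x : ℚ => (x : ℂ)

/-- The base change `C` from the Frobenius basis to rational coordinates and the rational form `(v, w) ↦ v A wᵀ` on
`ℚ^n` (row vectors) are a rational structure with a form: the logarithm `2 π i C⁻¹ N C` of the local monodromy is rational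
and the form is proportional to the flat form `S`. -/
structure RationalStructure {n : ℕ} (C : Matrix (Fin n) (Fin n) ℂ) (A : Matrix (Fin n) (Fin n) ℚ) : Prop where
  det : C.det ≠ 0
  log : ∃ M : Matrix (Fin n) (Fin n) ℚ, C * toC M = (2 * (Real.pi : ℂ) * Complex.I) • (N n * C)
  form : ∃ κ : ℂ, κ ≠ 0 ∧ C * toC A * C.transpose = κ • S n

/-- `H p = H^{p, n-1-p}`, `p < n = 2m`, are the parts of a Hodge structure of weight `n - 1` on `ℚ^n`, polarised by `± A`,
the steps `F^p = ⨁_{r ≥ p} H^{r, n-1-r}`, `p ≥ m`, of whose Hodge filtration are the spans of the derivatives of order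
`< n - p` of the period vector at the point `z = 1 / t` (the other steps are their orthogonal complements). -/
structure IsFibre {m : ℕ} (β : Fin m → ℚ) (t : ℕ) (C : Matrix (Fin (2 * m)) (Fin (2 * m)) ℂ)
    (A : Matrix (Fin (2 * m)) (Fin (2 * m)) ℚ) (H : ℕ → Submodule ℂ (Fin (2 * m) → ℂ)) : Prop where
  fil : ∀ p, m ≤ p → (⨆ r : {r : ℕ // p ≤ r ∧ r < 2 * m}, H r) =
    Submodule.span ℂ {v | ∃ i : ℕ, i + p < 2 * m ∧ v = Matrix.vecMul (per β t i) C}
  conj : ∀ p < 2 * m, ∀ v ∈ H p, (fun i => star (v i)) ∈ H (2 * m - 1 - p)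
  orth : ∀ p < 2 * m, ∀ r < 2 * m, p + r ≠ 2 * m - 1 → ∀ v ∈ H p, ∀ w ∈ H r,
    dotProduct v (Matrix.mulVec (toC A) w) = 0
  pos : ∃ ε : ℂ, (ε = 1 ∨ ε = -1) ∧ ∀ p < 2 * m, ∀ v ∈ H p, v ≠ 0 →
    0 < (ε * (Complex.I ^ p * (-Complex.I) ^ (2 * m - 1 - p)) *
      dotProduct v (Matrix.mulVec (toC A) fun i => star (v i))).re

/-- The tensors of type `P` in `V_{c 1} ⊗ ⋯ ⊗ V_{c r} ⊗ W^{⊗ j}` (complexified), in coordinates: functions of a multi-index
`J` for the first `r` factors, each of them is `V_i = ℚ^(2m)` with the Hodge decomposition `V i` for some `i = c a`, and of a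
multi-index `K` for `W^{⊗ j}`, `W = ℚ^d`. They are spanned by the products of vectors `v_a ∈ V_{c a}^{p_a, 2m-1-p_a}` and
`w_b ∈ W` of degree `q_b` with `∑ p_a + ∑ q_b = P`. If `W` is a Hodge structure and `U q` is the sum of its parts of type
`(q, *)`, the rational tensors of type `P` and weight `2P` are the Hodge classes. -/
def OfType {m k d r : ℕ} (V : Fin k → ℕ → Submodule ℂ (Fin (2 * m) → ℂ)) (c : Fin r → Fin k)
    (U : ℤ → Submodule ℂ (Fin d → ℂ)) (j : ℕ) (P : ℤ) : Submodule ℂ ((Fin r → Fin (2 * m)) → (Fin j → Fin d) → ℂ) :=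
  Submodule.span ℂ {f | ∃ (p : Fin r → ℕ) (v : Fin r → Fin (2 * m) → ℂ) (q : Fin j → ℤ) (w : Fin j → Fin d → ℂ),
    (∀ a, p a < 2 * m ∧ v a ∈ V (c a) (p a)) ∧ (∀ b, w b ∈ U (q b)) ∧ ∑ a, (p a : ℤ) + ∑ b, q b = P ∧
    f = fun J K => (∏ a, v a (J a)) * ∏ b, w b (K b)}

/-- the tensors of type `P` in `W_ℂ^{⊗ j}` -/
def OfTypeW {d : ℕ} (U : ℤ → Submodule ℂ (Fin d → ℂ)) (j : ℕ) (P : ℤ) : Submodule ℂ ((Fin j → Fin d) → ℂ) :=
  Submodule.span ℂ {z | ∃ (q : Fin j → ℤ) (w : Fin j → Fin d → ℂ), (∀ b, w b ∈ U (q b)) ∧ ∑ b, q b = P ∧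
    z = fun K => ∏ b, w b (K b)}

/-- The rational tensors of type `P` in `V_{c 1} ⊗ ⋯ ⊗ V_{c r} ⊗ W^{⊗ j}` which are combinations of products of the
polarisations: `r = 2s`, the first `r` factors are paired by a bijection `e : {1, …, s} × {1, 2} ≃ {1, …, r}` such that the
two factors of each pair have the same colour (are the same `V_i`), on each pair stands the tensor `A⁻¹` in `V_i ⊗ V_i`
(the dual form, of type `2m - 1`), and the coefficient `z` is a rational tensor of type `P - s (2m - 1)` in `W^{⊗ j}`. -/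
def Products {m k d r : ℕ} (A : Matrix (Fin (2 * m)) (Fin (2 * m)) ℚ) (c : Fin r → Fin k)
    (U : ℤ → Submodule ℂ (Fin d → ℂ)) (j : ℕ) (P : ℤ) : Submodule ℚ ((Fin r → Fin (2 * m)) → (Fin j → Fin d) → ℚ) :=
  Submodule.span ℚ {f | ∃ (s : ℕ) (e : Fin s × Fin 2 ≃ Fin r) (z : (Fin j → Fin d) → ℚ),
    (∀ l, c (e (l, 0)) = c (e (l, 1))) ∧ (fun K => ((z K : ℚ) : ℂ)) ∈ OfTypeW U j (P - (s : ℤ) * (2 * (m : ℤ) - 1)) ∧
    f = fun J K => (∏ l, A⁻¹ (J (e (l, 0))) (J (e (l, 1)))) * z K}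

/-- For all `r`, `j`, `c : {1, …, r} → {1, …, k}` and `P` every rational tensor of type `P` in
`V_{c 1} ⊗ ⋯ ⊗ V_{c r} ⊗ W^{⊗ j}` is a combination of products of the polarisations on pairs of factors of the same colour
and rational tensors of type `P - r (2m - 1) / 2` in `W^{⊗ j}`. -/
def OnlyProducts {m k d : ℕ} (A : Matrix (Fin (2 * m)) (Fin (2 * m)) ℚ) (V : Fin k → ℕ → Submodule ℂ (Fin (2 * m) → ℂ))
    (U : ℤ → Submodule ℂ (Fin d → ℂ)) : Prop :=
  ∀ (r j : ℕ) (c : Fin r → Fin k) (P : ℤ) (T : (Fin r → Fin (2 * m)) → (Fin j → Fin d) → ℚ),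
    (fun J K => ((T J K : ℚ) : ℂ)) ∈ OfType V c U j P → T ∈ Products A c U j P

theorem N_eq (n : ℕ) : N n = Pool.Agent.Y113.MT.NN ℂ n := rfl

theorem S_eq (n : ℕ) : S n = Pool.Agent.Y113.MT.SS ℂ n := rfl

theorem toC_eq {n : ℕ} (M : Matrix (Fin n) (Fin n) ℚ) : toC M = Pool.Agent.Y113.MT.cq M := rfl

/-- Let `m ≥ 2` and let `β_1, …, β_m` be rational numbers in `(0, 1)`.
(1) For all sufficiently large `G` there is `E` such that for all `B`, `t` with `(B + 2)^E ≤ t` and all rational structures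
`(C, A)` there is a set `S` with at most `m + 2` elements such that for every `W = ℚ^d` with a `ℤ`-grading `U` of `W_ℂ` there
is a set `S'` with at most `d² / (m (2m + 1))` elements such that for all `k` and all different `u_1, …, u_k ∈ {1, …, B}`
outside `S ∪ S'` and all Hodge structures `V_1, …, V_k` on `ℚ^(2m)` polarised by `± A` which are the fibres of the
hypergeometric variation at the points `z = 1 / (t - G u_i)` all rational tensors of type `P` in
`V_{c 1} ⊗ ⋯ ⊗ V_{c r} ⊗ W^{⊗ j}` (all `r`, `j`, `c`, `P`) are combinations of products of the polarisations on pairs of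
factors of the same colour and rational tensors of type `P - r (2m - 1) / 2` in `W^{⊗ j}`.
(2) For all `k` and `d` there are `δ > 0` and `K` such that for all rational structures `(C, A)`, all `W = ℚ^d` with a
`ℤ`-grading `U` of `W_ℂ` and all `T ≥ 1` there are at most `K T^(k - δ)` tuples `(t_1, …, t_k)` of natural numbers `≤ T`
such that this is false for some Hodge structures `V_i` which are the fibres at the points `z = 1 / t_i`. -/
theorem result {m : ℕ} (hm : 2 ≤ m) (β : Fin m → ℚ) (hβ : ∀ j, 0 < β j ∧ β j < 1) :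
    (∃ G0 : ℕ, ∀ G : ℕ, G0 ≤ G → ∃ E : ℕ, ∀ B t : ℕ, (B + 2) ^ E ≤ t → G * B < t ∧
      ∀ (C : Matrix (Fin (2 * m)) (Fin (2 * m)) ℂ) (A : Matrix (Fin (2 * m)) (Fin (2 * m)) ℚ), RationalStructure C A →
      ∃ S : Finset ℕ, S.card ≤ m + 2 ∧
      ∀ (d : ℕ) (U : ℤ → Submodule ℂ (Fin d → ℂ)), DirectSum.IsInternal U →
      ∃ S' : Finset ℕ, S'.card * (m * (2 * m + 1)) ≤ d ^ 2 ∧
      ∀ (k : ℕ) (u : Fin k → ℕ), Function.Injective u → (∀ i, 1 ≤ u i ∧ u i ≤ B ∧ u i ∉ S ∧ u i ∉ S') →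
      ∀ V : Fin k → ℕ → Submodule ℂ (Fin (2 * m) → ℂ), (∀ i, IsFibre β (t - G * u i) C A (V i)) → OnlyProducts A V U) ∧
    ∀ k d : ℕ, ∃ δ K : ℝ, 0 < δ ∧
      ∀ (C : Matrix (Fin (2 * m)) (Fin (2 * m)) ℂ) (A : Matrix (Fin (2 * m)) (Fin (2 * m)) ℚ), RationalStructure C A →
      ∀ U : ℤ → Submodule ℂ (Fin d → ℂ), DirectSum.IsInternal U → ∀ T : ℕ, 1 ≤ T →
      ({τ : Fin k → ℕ | (∀ i, τ i ≤ T) ∧ ∃ V : Fin k → ℕ → Submodule ℂ (Fin (2 * m) → ℂ),
        (∀ i, IsFibre β (τ i) C A (V i)) ∧ ¬ OnlyProducts A V U}.ncard : ℝ) ≤ K * (T : ℝ) ^ ((k : ℝ) - δ) := by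
  have hβ' : ∀ j, ∀ a : ℤ, β j ≠ a := by
    intro j a h
    have h1 := hβ j
    rw [h] at h1
    have h2 : (0 : ℤ) < a := by exact_mod_cast h1.1
    have h3 : a < (1 : ℤ) := by exact_mod_cast h1.2
    omega
  have hpi : (2 * (Real.pi : ℂ) * Complex.I) ≠ 0 := Complex.two_pi_I_ne_zero
  refine ⟨?_, fun k d => ?_⟩
  · obtain ⟨G0, h0⟩ := Pool.Agent.Y113.MT.arb_tensor Pool.Agent.Y46.MT.kw Pool.Agent.Y730.MT.nf Pool.Agent.Y730.MT.td
      Pool.Agent.Y921.MT.rb Pool.Agent.Y861.MT.wf Pool.Agent.Y130.MT.tn Pool.Agent.Y154.MT.fqc Pool.Agent.Y988.MT.tyc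
      Pool.Agent.Y455.MT.tbc Pool.Agent.Y220.MT.sim Pool.Agent.Y431.MT.intt Pool.Agent.Y815.MT.DimA.dim hm hβ'
    refine ⟨G0, fun G hG => ?_⟩
    obtain ⟨E, hE⟩ := h0 G hG
    refine ⟨E, fun B t ht => ?_⟩
    obtain ⟨h1, h2⟩ := hE B t ht
    refine ⟨by have := h1 B le_rfl; omega, fun C A hC => ?_⟩
    obtain ⟨hdet, ⟨M, hM⟩, κ, hκ, hA⟩ := hC
    obtain ⟨S, hS, hS2⟩ := h2 C M _ hdet hpi hM
    refine ⟨S, hS, fun d U hU => ?_⟩
    obtain ⟨S', hS', hS3⟩ := hS2 A κ hκ hA d U hU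
    refine ⟨S', hS', fun k u hu huS V hV => ?_⟩
    obtain ⟨-, htens⟩ := hS3 k u hu huS (fun i p => ⨆ r : {r : ℕ // p ≤ r ∧ r < 2 * m}, V i r) V
      (fun i p hp => (hV i).fil p hp) (fun i => ⟨fun _ => rfl, (hV i).conj, (hV i).orth, (hV i).pos⟩)
    exact fun r j c P T hT => htens r j c P T hT
  · obtain ⟨δ, K, hδ, hK⟩ := Pool.Agent.Y113.MT.tup_count Pool.Agent.Y46.MT.kw Pool.Agent.Y730.MT.nf Pool.Agent.Y730.MT.td
      Pool.Agent.Y921.MT.rb Pool.Agent.Y861.MT.wf Pool.Agent.Y130.MT.tn Pool.Agent.Y154.MT.fqc Pool.Agent.Y988.MT.tyc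
      Pool.Agent.Y455.MT.tbc Pool.Agent.Y220.MT.sim Pool.Agent.Y431.MT.intt Pool.Agent.Y815.MT.DimA.dim
      Pool.Agent.Y730.MT.cnt Pool.Agent.Y651.MT.uni Pool.Agent.Y889.MT.ctk hm hβ' k d
    refine ⟨δ, K, hδ, fun C A hC U hU T hT => ?_⟩
    obtain ⟨hdet, ⟨M, hM⟩, κ, hκ, hA⟩ := hC
    refine le_trans ?_ (hK C M _ hdet hpi hM A κ hκ hA U hU T hT)
    refine Nat.cast_le.2 (Set.ncard_le_ncard ?_ ((Set.finite_Iic (fun _ => T : Fin k → ℕ)).subset fun τ hτ => fun i => hτ.1 i))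
    rintro τ ⟨hτ, V, hV, hn⟩
    exact ⟨hτ, fun i p => ⨆ r : {r : ℕ // p ≤ r ∧ r < 2 * m}, V i r, V, fun i p hp => (hV i).fil p hp,
      fun i => ⟨fun _ => rfl, (hV i).conj, (hV i).orth, (hV i).pos⟩, fun h => hn fun r j c P T hT => h r j c P T hT⟩

end Pool.Agent.Results.MP_4e1cf2_ag.ArbitraryFactor
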