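import Pool.Agent.Y121.AHS.Law

/-!
# The index of the absolutely Hodge classes among the Hodge classes

Let `T` be a Hodge theory on a class of smooth projective varieties (in the intended use the
varieties are all smooth projective complex varieties, or those over an algebraically closed
subfield, and `T` is `X ↦ H(X, ℚ)`), and `D` a family of conjugate theories `T' i` with comparison
isomorphisms `a` with coefficients `L i a` (the theories `X ↦ H(X^σ, ℚ)` for the automorphisms `σ`
of `ℂ`, with the comparison isomorphisms given by de Rham cohomology and by `ℓ`-adic cohomology for
all primes `ℓ`).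

For every variety `X` of the class with nonzero cohomology there is an element `N` of `{1, 2, …, ∞}`
such that the quotient of the number of linearly independent Hodge classes on `X ^ n` and of the
number of linearly independent absolutely Hodge classes on `X ^ n` tends to `N`, and:

* `N = 1` if and only if all Hodge classes on all powers of `X` are absolutely Hodge; otherwise
  asymptotically at most one half of the Hodge classes is absolutely Hodge;
* if `N` is finite, then for every conjugate theory there are `N` elements of the product of all
  coefficient fields (`ℂ × ∏ ℚ_ℓ`) which span a ring over `ℚ`, such that all comparison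
  isomorphisms map every Hodge class on every power of `X` to a linear combination of Hodge classes
  with these coefficients;
* if `N` is finite, all Hodge classes on all powers of `X` are obtained from the absolutely Hodge
  classes and at most `N - 1` Hodge classes by absolutely Hodge correspondences.
-/

open CategoryTheory AlgebraicGeometry

universe u

namespace Pool.Agent.Results.MP_4e1cf2_ag.HodgeIndex

open Pool.Agent.H914 Pool.Agent.Y121.AHS Pool.Agent.Y121.AHS.Full
open Pool.Agent.Y133.Half (pw AtMostHalf)

variable {k : Type u} [Field k] {𝒱 : VarClass k} {ops : CycleOps 𝒱}

/-- The index law: `pw X n` is the product of `n + 1` copies of `X`. -/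
theorem result (T : HodgeTheory ops) (D : Full.Conjugates T) (X : 𝒱.Obj)
    [Nontrivial (T.W.H X)] :
    ∃ N : ℕ∞, 1 ≤ N ∧
      HasIndex (fun n => hodgeDim T (pw X n)) (fun n => Full.absDim D (pw X n)) N ∧
      (N = 1 ↔ ∀ n j c, IsHodge T (pw X n) j c → Full.IsAbsHodge D (pw X n) j c) ∧
      (N ≠ 1 → AtMostHalf (fun n => Full.absDim D (pw X n)) fun n => hodgeDim T (pw X n)) ∧
      (∀ r : ℕ, N = r → ∀ i, ∃ e : Fin r → ∀ a, D.L i a, SpansRing e ∧
        ∀ n j, GivenBy D i e (pw X n) j) ∧
      (N ≠ ⊤ → FewGenerators D X N) :=
  index_law T D X

end Pool.Agent.Results.MP_4e1cf2_ag.HodgeIndex
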