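import Mathlib
import Pool.Agent.Y91.VH.Main
import Pool.Agent.Y91.AH.Main
import Pool.Agent.Y91.AH.Conj

/-!
# Hodge classes and absolute Hodge classes on the products of abelian schemes with general monodromy
# and a family of varieties which does not determine their periods

Let `B` be (the universal covering of) the base, `A → B` a fibre product (repetitions allowed) of
families `A i` of principally polarized abelian varieties and `Y → B` ANY family of smooth
projective varieties. The homology of the fibres of `A` is trivialized, and so is the cohomology
`ℚ ^ v` of the fibres of `Y`; the Hodge structure of `Y_b` is given by its Hodge operator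
(multiplication by `p - q` on `H ^ (p, q)`). Flat classes on `A ×_B Y` are the elements of
`⨁ k, H^k(A) ⊗ H(Y) = HAZ W v`. At a point `b` of `B` outside of countably many proper closed analytic
subsets (the Hodge loci) all Hodge classes on `A_b × Y_b` are flat Hodge classes, that is they are
Hodge classes on all fibres.

Suppose (`NotDetermined`) that through each point of `B` there is a connected Riemann surface
`U → B` such that each `A i` is a good family over `U` and its periods are not determined by those
of `Y`: there are two points `s`, `t` of `U` such that the flat Hodge structures `H(Y_s)` and
`H(Y_t)` are the same and the periods of `A i` at `s` and `t` are different. For instance `Y` is a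
fixed variety and `A i` is not constant along `U`; or `U` is the universal covering of a curve and
some monodromy operator is trivial on the cohomology of `Y` and not trivial on the homology of `A i`
(so it suffices that `A i` has bad reduction at a cusp at which `Y` has good reduction).

Good families are those which satisfy one of the following conditions (`HasGoodRank`).

1. A member is simple, more than half of the endomorphisms are symmetric for the Rosati involution
   (the endomorphism algebra is of type I or II in the classification of Albert) and some rational
   rank `r` is different from `0`, `g / 2` and `g`, and `(g, r)` is not exceptional, or there is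
   another rational rank. A rational rank is the rank of `γ - 1` for a monodromy operator `γ` with
   `(γ - 1) ^ 2 = 0`, that is the dimension of the toric part at a semistable degeneration, or the
   rank of a rational square zero element of the Lie algebra generated by the Hodge operators. The
   pair is exceptional if `2 g = e * C(4j+2, 2j+1)` and `r = e * C(4j, 2j)` for some `e` and `j ≥ 1`,
   for instance `(10, 6)`, `(126, 70)`.
2. All endomorphisms are rational numbers, some rank `r` of the family is different from `0`, `g / 2`
   and `g`, and `(g, r)` is not exceptional with `e = 1` or there is another rank, and `2 g` does not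
   divide the product of two of the ranks. A rank is the rank of the Kodaira-Spencer map at one
   point, of the difference of two period matrices, of the image of a period matrix under a
   derivation of the complex numbers, or of any square zero element of the Lie algebra generated by
   the Hodge operators.
3. A member is simple and some rank of the family is odd, or is two and the centre of the
   endomorphism algebra is totally real.

The theorem: if all flat Hodge classes of the family `Y → B` are absolute Hodge classes then all flat
Hodge classes of the family `A ×_B Y → B` are absolute Hodge classes, at every point `b` of `B`. Here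
absolute means: for each automorphism `σ` of the complex numbers there is a Hodge class `F'` on the
conjugate variety which is the image of the given class under the isomorphisms for ALL cohomology
theories `p` in a given set `P`; `L p` is the field of coefficients. The full notion of the problem is
`P = {de Rham} ∪ {primes}` with `L = ℂ` and `L = ℚ_ℓ`; the isomorphisms are given by their matrices in
rational bases (in the normalization of the problem, with the twists `ℚ(p)`). Nothing is used of them
except that they map divisor classes on `A_b` to divisor classes on the conjugate of `A_b`
(`KeepsDivisors`).

For abelian schemes this is the theorem of Deligne; for `A ×_B Y` it is not known to follow from the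
statement for `Y`, even if `Y` is a fixed surface.

The proof. A classification free argument with Jordan pairs shows that the Lie algebra generated by
the Hodge operators of `A i` is symplectic over the complex numbers on each irreducible piece. Let
`F` be a flat class which is a Hodge class on all fibres. The difference of the Hodge operators of
`A` at the points `s`, `t` kills `F`. The elements of the Hodge Lie algebra of a very general `A_b`
which kill `F` form an ideal, stable under the automorphisms of the complex numbers, which acts
without invariants on the homology of each factor since this factor is simple; the complementary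
ideal has zero product with it, so it is zero. Hence `F` is killed by the Hodge operators of the
`A_b` and of the `Y_b`, and it is a sum of products of divisor classes on `A` and flat Hodge classes
of `Y`.
-/

namespace Pool.Agent.Results.MP_4e1cf2_ag.MonodromyFamilies

open Matrix Module Pool.Agent.H204R3.CM Pool.Agent.H194R3.CM Pool.Agent.W437.HD
  Pool.Agent.W437.HP Pool.Agent.TH131.GHC Pool.Agent.TH504.VY Pool.Agent.Y91.Sharp
  Pool.Agent.Y91.VH Pool.Agent.Y91.TT Pool.Agent.Y91.AH

/-- All flat Hodge classes of the family `Y` are absolute Hodge classes at the point `b`: their
conjugates under all automorphisms of the complex numbers are Hodge classes. (`Γ` is the set of the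
automorphisms and `σ` gives the conjugates of the fibre at `b`.) -/
def FlatClassesAbsoluteOnY {B Γ P : Type} {L : P → Type} [∀ p, Field (L p)] [∀ p, CharZero (L p)]
    {n : ℕ} {d : Fin n → ℕ} {v : ℕ} (Y : B → Coh v) (σ : Γ → Conjugate L d v) : Prop :=
  ∀ x, (∀ b, IsHodgeOn (Y b) x) → ∀ γ, (σ γ).KeepsClass x

/-- All flat Hodge classes of the family `A ×_B Y` are absolute Hodge classes at the point `b`. -/
def FlatClassesAbsolute {B Γ P : Type} {L : P → Type} [∀ p, Field (L p)] [∀ p, CharZero (L p)]
    {n : ℕ} {d : Fin n → ℕ} {T : Type} [AddCommGroup T] [Module ℂ T] (per : B → HV ℚ d →+ T)
    {v : ℕ} (Y : B → Coh v) (σ : Γ → Conjugate L d v) : Prop :=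
  ∀ F, (∀ b, IsHodgeOnProduct (per b) (Y b) F) → ∀ γ, (σ γ).Keeps F

/-- Let `A` be a fibre product of good families of abelian varieties whose periods are not determined
by the periods of `Y`. At each point `b`: if all flat Hodge classes of `Y` are absolute Hodge
classes, then all flat Hodge classes of `A ×_B Y` are absolute Hodge classes. -/
theorem result {ι B : Type} [Nonempty B] {g : ι → ℕ}
    (Z : ∀ i, B → Matrix (Fin (g i)) (Fin (g i)) ℂ) {n : ℕ} (c : Fin n → ι) {v : ℕ}
    (Y : B → Coh v) (h : NotDetermined Z Y) (b : B) {Γ P : Type} (L : P → Type)
    [∀ p, Field (L p)] [∀ p, CharZero (L p)] (σ : Γ → Conjugate L (fun j => g (c j)) v)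
    (hdiv : ∀ γ, (σ γ).KeepsDivisors (fibreProduct Z c b)) (hY : FlatClassesAbsoluteOnY Y σ) :
    FlatClassesAbsolute (fibreProduct Z c) Y σ := by
  intro F hF γ
  let Q : Submodule ℚ (HAZ (HV ℚ fun j => g (c j)) v) :=
    { carrier := {F | (σ γ).Keeps F}
      zero_mem' := ⟨0, product_zero, fun p => carries_zero⟩
      add_mem' := by
        rintro F G ⟨F', h1, h2⟩ ⟨G', h3, h4⟩
        exact ⟨F' + G', product_add h1 h3, fun p => carries_add (h2 p) (h4 p)⟩
      smul_mem' := by
        rintro r F ⟨F', h1, h2⟩
        exact ⟨r • F', product_smul r h1, fun p => carries_smul r (h2 p)⟩ }
  have hmov : NotDetermined (fun j => Z (c j)) Y := by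
    intro b
    obtain ⟨U, φ, hU, hc, hb, hm⟩ := h b
    exact ⟨U, φ, hU, hc, hb, fun j => hm (c j)⟩
  have key : F ∈ Q := by
    refine mem_of_integrals hmov hF fun k j e f β hf hβ => ?_
    obtain ⟨x', h1, h2⟩ := hY _ (fun b' => integral_mem hmov hF e β b') γ
    exact cross_carries (hdiv γ) (hf b) h1 h2
  exact key

end Pool.Agent.Results.MP_4e1cf2_ag.MonodromyFamilies
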