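import Pool.Agent.Y132.AH.HLev

/-!
# Hodge classes and absolute Hodge classes on products with varieties of symplectic type

Let `X i` be a family of smooth projective varieties of odd dimension, which may be infinite, such
that homological and numerical equivalence coincide on `X i`, the transcendental cohomology `T i` of
`X i` is concentrated in the middle degree, the Mumford-Tate group acts irreducibly on the skew
operators on `T i` (i.e., the Hodge group of `T i` is the symplectic group), and these adjoint
representations are pairwise not isomorphic. Let `Z` be any smooth projective variety.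

We show that there is a finite set `B` of indices (with the sum of the dimensions of the `T i`,
`i ∈ B`, at most the dimension of the cohomology of `Z`) such that all Hodge classes on the product
of `Z` and powers of the `X i` are absolute Hodge classes if and only if this holds for the products
of `Z` and few varieties `X i`, `i ∈ B` (structure `SmallHodge`; the number of the factors is at most
the dimension of `Z`). For the `i ∈ B` the Hodge types of `T i` satisfy strong restrictions
(`TypeBound`). In particular, the set `B` is empty if the level of the `T i` is larger than the width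
`N` of `Z`; if `Z` is an abelian variety this means that the level is at least `2`.
-/

open CategoryTheory AlgebraicGeometry

universe u

namespace Pool.Agent.Results.MP_4e1cf2_ag.SymplecticFamilies

open Pool.Agent.H914 Pool.Agent.H914.VarClass Pool.Agent.H914.VarClass.Obj Pool.Agent.Y132.AH

variable {k : Type u} [Field k] {𝒱 : VarClass k} {ops : CycleOps 𝒱}

theorem result (W : WeilCohomology.{u, 0} ops) [IsAlgClosed W.K] (Ψ : HodgeData W)
    (E : Embeddings W) {ι : Type} [DecidableEq ι] (X : ι → 𝒱.Obj) (Z : 𝒱.Obj)
    (hX : SpFamily Ψ X) :
    (∃ B : Finset ι, ∑ i ∈ B, trDim W (X i) ≤ totDim W Z ∧ (∀ i ∈ B, TypeBound Ψ (X i) Z) ∧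
      ∀ L : List ι, AllAbsolute Ψ E (prodList X Z L) ↔
        ∀ L' : List ι, L'.Sublist L → SmallHodge Ψ X Z B L' →
          AllAbsolute Ψ E (prodList X Z L')) ∧
    ∀ N : ℕ, WidthLE Ψ Z N → (∀ i, LevelGT Ψ (X i) N) →
      ∀ L : List ι, AllAbsolute Ψ E (prodList X Z L) ↔ AllAbsolute Ψ E Z :=
  ⟨abs_iff Ψ E Z hX, fun N hZ hlev L => by
    rw [← hodgeIn_abs, ← hodgeIn_abs, hodge_level Ψ Z hX (absSystem Ψ E) hZ hlev L]⟩

end Pool.Agent.Results.MP_4e1cf2_ag.SymplecticFamilies
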